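import Pool.Agent.T6.H85.LV.ASM
import Pool.Agent.T6.H85.LV.DEV1
import Pool.Agent.T6.H85.LV.DEV2
import Pool.Agent.T6.H85.LV.DEV3
import Pool.Agent.T6.H85.LV.ROT
import Pool.Agent.T6.H85.LV.FS
import Pool.Agent.T6.H85.LV.LOW
import Pool.Agent.T6.H85.LV.CONN
import Pool.Agent.T6.H85.LV.SPLIT
import Pool.Agent.T6.H85.LV.STAR
import Pool.Agent.T6.H85.LV.BLK0
import Pool.Agent.T6.H85.LV.BLK
import Pool.Agent.T6.H85.LV.GR2
import Pool.Agent.T6.H85.LV.GROSS
import Pool.Agent.T6.H85.LV.SEP0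
import Pool.Agent.T6.H85.LV.SEP
import Pool.Agent.T6.H85.LV.PAIR
import Pool.Agent.T6.H85.LV.TRANS
import Pool.Agent.T6.H85.LV.LOC
import Pool.Agent.T6.H85.LV.ANT
import Pool.Agent.T6.H85.LV.AFF
import Pool.Agent.T6.H85.LV.C0
import Pool.Agent.T6.H85.LV.C1
import Pool.Agent.T6.H85.LV.C2S
import Pool.Agent.T6.H85.LV.C2B
import Pool.Agent.T6.H85.LV.C2C
import Pool.Agent.T6.H85.LV.C2D
import Pool.Agent.T6.H85.LV.C2E
import Pool.Agent.T6.H85.LV.RAD
import Pool.Agent.T6.H85.LV.RADD
import Pool.Agent.T6.H85.LV.ONE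
import Pool.Agent.T6.H85.LV.ONED
import Pool.Agent.T6.H85.LV.EQV

/-!
# Diameter-`π` rigidity for the Liouville equation (MP_47dd70_an, Q1: true)

The plane `ℝ²` is the complex plane with its norm and real inner product. For every `C²` solution
`u` of `Δu + e^{2u} = 0` on the whole plane, with no integrability or boundedness assumption, the
metric `g = e^{2u} |dz|²` has diameter `π` if and only if `u` is radial up to translation or
one-dimensional.

Idea of the proof. `e^{-u} = (|y₁|² + |y₂|²) / 2` for entire `y₁`, `y₂` of Wronskian `1`, so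
`F = y₂ / y₁` is a local isometry from the plane to the round sphere. For a point `x` take the
maximal star-shaped domain of a branch of `F⁻¹` with centre `F(x)` (Gross star). If the diameter is
at most `π` then two blocked directions of a star are equal or opposite: two blocked rays separate
the plane, almost every direction is free, and a curve from one side to the other of the cut would
be longer than `π`. No blocked direction: `F` is affine up to a rotation; exactly one at every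
point: `F` is a Moebius map; two opposite ones: `F` is the exponential of an affine function up to
a rotation.
-/

set_option autoImplicit false

namespace Pool.Agent.Results.MP_47dd70_an.DiameterPiRigidity

open Set

/-- piecewise `C¹` curves `γ : [0, 1] → ℝ²` -/
def PiecewiseC1 (γ : ℝ → ℂ) : Prop :=
  ContinuousOn γ (Icc 0 1) ∧ ∃ (n : ℕ) (t : ℕ → ℝ), t 0 = 0 ∧ t n = 1 ∧
    (∀ i < n, t i < t (i + 1)) ∧ ∀ i < n, ContDiffOn ℝ 1 γ (Icc (t i) (t (i + 1)))

/-- the length `∫₀¹ e^{u(γ(t))} |γ'(t)| dt` of `γ` for the metric `e^{2u} |dz|²` -/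
noncomputable def length (u : ℂ → ℝ) (γ : ℝ → ℂ) : ℝ :=
  ∫ t in (0 : ℝ)..1, Real.exp (u (γ t)) * ‖deriv γ t‖

/-- the length distance `d_g(x, y)` of `g = e^{2u} |dz|²` -/
noncomputable def dg (u : ℂ → ℝ) (x y : ℂ) : ℝ :=
  sInf {L : ℝ | ∃ γ : ℝ → ℂ, PiecewiseC1 γ ∧ γ 0 = x ∧ γ 1 = y ∧ L = length u γ}

/-- `π` is the least upper bound of the distances `d_g(x, y)` -/
def DiameterIsPi (u : ℂ → ℝ) : Prop := IsLUB {r : ℝ | ∃ x y : ℂ, r = dg u x y} Real.pi

/-- `u(x) = φ(|x - x₀|)` -/
def RadialUpToTranslation (u : ℂ → ℝ) : Prop :=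
  ∃ (x₀ : ℂ) (φ : ℝ → ℝ), ∀ x, u x = φ ‖x - x₀‖

/-- `u(x) = f(⟨x, e⟩)` for a unit vector `e` -/
def OneDimensional (u : ℂ → ℝ) : Prop :=
  ∃ (e : ℂ) (f : ℝ → ℝ), ‖e‖ = 1 ∧ ∀ x, u x = f (inner ℝ e x)

open Pool.Agent.T6.H85.LV in
/-- MP_47dd70_an, Q1, in full -/
theorem result (u : ℂ → ℝ) (hC2 : ContDiff ℝ 2 u)
    (hL : ∀ z, Laplacian.laplacian u z + Real.exp (2 * u z) = 0) :
    DiameterIsPi u ↔ RadialUpToTranslation u ∨ OneDimensional u := by
  have hd : ∀ x y, dg u x y = gdist u x y := fun x y => eqv u hC2.continuous x y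
  have h := ASM.assembly dev1 dev2 dev3 rot star blk0
    (pair fs (low fs) conn split (gross blk0 (gr2 blk)) (sep blk sep0))
    (loc blk trans) (ant rot star blk0 (loc blk trans)) (c0 aff) (c1 trans rot star (c0 aff))
    (c2s blk) c2b c2c c2d (c2e aff) rad (radd fs (low fs) conn) one (oned fs (low fs) conn)
    u ⟨hC2, hL⟩
  unfold DiameterIsPi
  simp only [hd]
  exact h

end Pool.Agent.Results.MP_47dd70_an.DiameterPiRigidity
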